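import Pool.Agent.Helper77_QE.Basic

/-!
# Quantum ergodicity squad: module LOCAL

Every bounded covariant family `A` is approximated, in the mean square of the column at the
origin, by a covariant family whose entries are cylinder functions and which has finitely many
diagonals.
-/

set_option autoImplicit false
set_option linter.unusedSectionVars false

open scoped InnerProductSpace ComplexConjugate Topology ENNReal
open MeasureTheory Filter

noncomputable section

namespace Pool.Agent.QE77

open Pool.Agent.Anderson Pool.Agent.Helper54.Bal Pool.Agent.QE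

variable {d : ℕ}

/-- the band operator with entries `b_a (tau (y - a) V)` -/
def band (S : Finset (Site d)) (b : Site d → QE.Cfg d → ℂ) (M : Site d → ℝ)
    (hM : ∀ a V, ‖b a V‖ ≤ M a) (V : QE.Cfg d) : Op d :=
  ∑ a ∈ S, (shift (-a)).toContinuousLinearMap.comp
    (mulOp (fun x => b a (QE.tau x V)) (M a) (fun _ => hM a _))

theorem band_apply (S : Finset (Site d)) (b : Site d → QE.Cfg d → ℂ) (M : Site d → ℝ)
    (hM : ∀ a V, ‖b a V‖ ≤ M a) (V : QE.Cfg d) (u : L2 d) (y : Site d) :
    band S b M hM V u y = ∑ a ∈ S, b a (QE.tau (y - a) V) * u (y - a) := by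
  unfold band
  rw [_root_.sum_apply, coe_sum_apply]
  refine Finset.sum_congr rfl fun a _ => ?_
  rw [ContinuousLinearMap.comp_apply]
  change shift (-a) _ y = _
  rw [shift_apply, mulOp_apply, ← sub_eq_add_neg]

theorem norm_mulOp_apply_le (m : Site d → ℂ) (M : ℝ) (hm : ∀ x, ‖m x‖ ≤ M) (f : L2 d) :
    ‖mulOp m M hm f‖ ≤ |M| * ‖f‖ := by
  refine (ContinuousLinearMap.le_opNorm _ _).trans ?_
  gcongr
  exact LinearMap.mkContinuous_norm_le _ (abs_nonneg _) _

theorem cov_band (S : Finset (Site d)) (b : Site d → QE.Cfg d → ℂ) (M : Site d → ℝ)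
    (hM : ∀ a V, ‖b a V‖ ≤ M a) (hb : ∀ a, Measurable (b a)) : Cov (band S b M hM) where
  meas f := by
    apply sm_of_coord
    intro y
    simp only [band_apply]
    refine Finset.measurable_fun_sum S fun a _ => ?_
    exact ((hb a).comp (measurable_tau _)).mul_const _
  cov c V u := by
    ext y
    rw [band_apply, shift_apply, band_apply]
    refine Finset.sum_congr rfl fun a _ => ?_
    rw [tau_tau, shift_apply]
    have : y - a + c = y + c - a := by abel
    rw [this]
  bdd := by
    refine ⟨∑ a ∈ S, |M a|, fun V => ?_⟩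
    refine ContinuousLinearMap.opNorm_le_bound _ (Finset.sum_nonneg fun a _ => abs_nonneg _) ?_
    intro u
    unfold band
    rw [_root_.sum_apply, Finset.sum_mul]
    refine (norm_sum_le _ _).trans (Finset.sum_le_sum fun a _ => ?_)
    rw [ContinuousLinearMap.comp_apply]
    change ‖shift (-a) _‖ ≤ _
    rw [LinearIsometry.norm_map]
    exact norm_mulOp_apply_le _ _ _ _

theorem loc_band (S : Finset (Site d)) (b : Site d → QE.Cfg d → ℂ) (M : Site d → ℝ)
    (hM : ∀ a V, ‖b a V‖ ≤ M a) (Λ : Site d → Finset (Site d))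
    (hΛ : ∀ a, ∀ V W : QE.Cfg d, (∀ x ∈ Λ a, V x = W x) → b a V = b a W) :
    Loc (band S b M hM) (∑ a ∈ S, 2 * M a)
      (S.biUnion fun a => (Λ a).image fun x => -x) := by
  classical
  have hM0 : ∀ a, 0 ≤ M a := fun a => (norm_nonneg _).trans (hM a 0)
  refine ⟨Finset.sum_nonneg fun a _ => mul_nonneg (by norm_num) (hM0 a), ?_⟩
  intro x₀ V v u
  set V' := Function.update V x₀ v with hV'
  set F := S.biUnion fun a => (Λ a).image fun x => -x with hF
  have hd : ∀ a x, ‖b a (QE.tau x V') - b a (QE.tau x V)‖ ≤ 2 * M a := by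
    intro a x
    refine (norm_sub_le _ _).trans ?_
    linarith [hM a (QE.tau x V'), hM a (QE.tau x V)]
  have e : band S b M hM V' u - band S b M hM V u =
      ∑ a ∈ S, shift (-a) (mulOp (fun x => b a (QE.tau x V') - b a (QE.tau x V)) (2 * M a)
        (fun x => hd a x) u) := by
    ext y
    rw [sub_coe, band_apply, band_apply, coe_sum_apply, ← Finset.sum_sub_distrib]
    refine Finset.sum_congr rfl fun a _ => ?_
    rw [shift_apply, mulOp_apply, ← sub_eq_add_neg]
    ring
  rw [e, Finset.sum_mul]
  refine (norm_sum_le _ _).trans (Finset.sum_le_sum fun a ha => ?_)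
  rw [LinearIsometry.norm_map]
  -- the difference is supported in `x₀ + F`
  have hsupp : ∀ x ∉ F.image (fun y => x₀ + y),
      mulOp (fun x => b a (QE.tau x V') - b a (QE.tau x V)) (2 * M a) (fun x => hd a x) u x = 0 := by
    intro x hx
    rw [mulOp_apply]
    have : b a (QE.tau x V') = b a (QE.tau x V) := by
      apply hΛ
      intro w hw
      unfold QE.tau
      rw [hV', Function.update_of_ne]
      intro h
      apply hx
      rw [Finset.mem_image]
      refine ⟨-w, ?_, ?_⟩
      · rw [hF, Finset.mem_biUnion]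
        exact ⟨a, ha, Finset.mem_image_of_mem _ hw⟩
      · rw [← h]; abel
    rw [this, sub_self, zero_mul]
  refine (norm_le_sum_of_support _ _ hsupp).trans ?_
  rw [Finset.sum_image (fun p _ q _ h => add_left_cancel h), Finset.mul_sum]
  refine Finset.sum_le_sum fun y _ => ?_
  rw [mulOp_apply, norm_mul]
  gcongr
  exact hd a _

/-- **module LOCAL** -/
theorem local_of (h : CylStatement) : LocalStatement := by
  classical
  intro d μ _ A hA κ hκ
  obtain ⟨C, hC⟩ := hA.bdd
  have hC0 : 0 ≤ C := (norm_nonneg _).trans (hC 0)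
  set f : Site d → QE.Cfg d → ℂ := fun y V => A V (del 0) y with hf
  have hfm : ∀ y, Measurable (f y) := fun y => measurable_coord (hA.meas (del 0)) y
  have hA1 : ∀ V, ‖A V (del 0)‖ ≤ C := by
    intro V
    refine (ContinuousLinearMap.le_opNorm _ _).trans ?_
    rw [norm_del, mul_one]
    exact hC V
  have hfb : ∀ y V, ‖f y V‖ ≤ C := fun y V => (norm_coord_le _ _).trans (hA1 V)
  -- the tail
  have htot : ∑' y, ∫⁻ V, ‖f y V‖ₑ ^ 2 ∂(QE.PP d μ) ≠ ∞ := by
    rw [← lintegral_tsum (fun y => ((hfm y).enorm.pow_const 2).aemeasurable)]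
    have : ∀ V, ∑' y, ‖f y V‖ₑ ^ 2 ≤ ENNReal.ofReal (C ^ 2) := by
      intro V
      rw [← enorm_sq_tsum, enorm_sq_ofReal]
      apply ENNReal.ofReal_le_ofReal
      have := hA1 V
      gcongr
    refine ne_top_of_le_ne_top ?_ (lintegral_mono this)
    rw [lintegral_const, measure_univ, mul_one]
    exact ENNReal.ofReal_ne_top
  have htail := ENNReal.tendsto_tsum_compl_atTop_zero htot
  have hκ2 : 0 < ENNReal.ofReal (κ / 2) := ENNReal.ofReal_pos.2 (by linarith)
  obtain ⟨S, hS⟩ := ((tendsto_order.1 htail).2 _ hκ2).exists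
  -- the approximation
  have hκ' : 0 < κ / 2 / (S.card + 1) := by positivity
  choose b Λ C' hbm hbC hbΛ hbκ using fun y : Site d =>
    h d μ (f y) (hfm y) C (hfb y) (κ / 2 / (S.card + 1)) hκ'
  refine ⟨band S b C' hbC, _, _, cov_band S b C' hbC hbm, loc_band S b C' hbC Λ hbΛ, ?_⟩
  -- the column at the origin
  have hcol : ∀ V y, band S b C' hbC V (del 0) y = if y ∈ S then b y V else 0 := by
    intro V y
    rw [band_apply]
    have : ∀ a ∈ S, b a (QE.tau (y - a) V) * (del (0 : Site d)) (y - a) =
        if a = y then b y V else 0 := by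
      intro a _
      rw [del_apply]
      by_cases hay : a = y
      · subst hay
        rw [sub_self, if_pos rfl, if_pos rfl, mul_one]
        congr 1
        funext w
        unfold QE.tau
        rw [add_zero]
      · rw [if_neg (sub_ne_zero.2 (Ne.symm hay)), if_neg hay, mul_zero]
    rw [Finset.sum_congr rfl this, Finset.sum_ite_eq']
  have hBm : ∀ y, Measurable fun V => band S b C' hbC V (del 0) y := fun y =>
    measurable_coord ((cov_band S b C' hbC hbm).meas (del 0)) y
  calc ∫⁻ V, ‖A V (del 0) - band S b C' hbC V (del 0)‖ₑ ^ 2 ∂(QE.PP d μ)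
      = ∫⁻ V, ∑' y, ‖f y V - band S b C' hbC V (del 0) y‖ₑ ^ 2 ∂(QE.PP d μ) := by
        refine lintegral_congr fun V => ?_
        rw [enorm_sq_tsum]
        rfl
    _ = ∑' y, ∫⁻ V, ‖f y V - band S b C' hbC V (del 0) y‖ₑ ^ 2 ∂(QE.PP d μ) :=
        lintegral_tsum (fun y => (((hfm y).sub (hBm y)).enorm.pow_const 2).aemeasurable)
    _ = ∑ y ∈ S, ∫⁻ V, ‖f y V - band S b C' hbC V (del 0) y‖ₑ ^ 2 ∂(QE.PP d μ) +
        ∑' y : { y // y ∉ S }, ∫⁻ V, ‖f y V - band S b C' hbC V (del 0) y‖ₑ ^ 2 ∂(QE.PP d μ) :=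
        (ENNReal.sum_add_tsum_compl S _).symm
    _ ≤ ∑ y ∈ S, ENNReal.ofReal (κ / 2 / (S.card + 1)) + ENNReal.ofReal (κ / 2) := by
        refine add_le_add (Finset.sum_le_sum fun y hy => ?_) ?_
        · refine le_trans (le_of_eq ?_) (hbκ y)
          refine lintegral_congr fun V => ?_
          rw [hcol, if_pos hy]
        · refine le_trans (le_of_eq ?_) hS.le
          refine tsum_congr fun y => ?_
          refine lintegral_congr fun V => ?_
          rw [hcol, if_neg y.2, sub_zero]
    _ ≤ ENNReal.ofReal (κ / 2) + ENNReal.ofReal (κ / 2) := by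
        gcongr
        rw [Finset.sum_const, nsmul_eq_mul, ← ENNReal.ofReal_natCast,
          ← ENNReal.ofReal_mul (Nat.cast_nonneg _)]
        apply ENNReal.ofReal_le_ofReal
        rw [mul_div_assoc', div_le_iff₀ (by positivity)]
        nlinarith
    _ = ENNReal.ofReal κ := by
        rw [← ENNReal.ofReal_add (by linarith) (by linarith)]
        congr 1
        ring

end Pool.Agent.QE77
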