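import Pool.Agent.Helper77_QE.StepA

/-!
# Quantum ergodicity squad: module STEP, conclusion
-/

set_option autoImplicit false
set_option linter.unusedSectionVars false

open scoped InnerProductSpace ComplexConjugate Topology ENNReal
open MeasureTheory Filter

noncomputable section

namespace Pool.Agent.QE77

open Pool.Agent.Anderson Pool.Agent.Helper54.Bal Pool.Agent.QE

variable {d : ℕ}

theorem exists_tail {Ω : Type*} [MeasurableSpace Ω] (ν : Measure Ω) [IsFiniteMeasure ν]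
    (f : Ω → ℝ) (hf : Measurable f) (η : ℝ≥0∞) (hη : 0 < η) :
    ∃ K : ℝ, 0 < K ∧ ν {ω | K ≤ |f ω|} ≤ η := by
  have h := tendsto_measure_iInter_atTop (μ := ν) (s := fun n : ℕ => {ω | (n : ℝ) ≤ |f ω|})
    (fun n => (measurableSet_le measurable_const hf.abs).nullMeasurableSet)
    (fun m n hmn ω hω => by
      simp only [Set.mem_ofPred_eq] at hω ⊢
      exact le_trans (by exact_mod_cast hmn) hω)
    ⟨0, measure_ne_top _ _⟩
  have h0 : (⋂ n : ℕ, {ω | (n : ℝ) ≤ |f ω|}) = ∅ := by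
    ext ω
    simp only [Set.mem_iInter, Set.mem_ofPred_eq, Set.mem_empty_iff_false, iff_false, not_forall,
      not_le]
    exact exists_nat_gt _
  rw [h0, measure_empty] at h
  obtain ⟨n, hn, hn1⟩ := (((tendsto_order.1 h).2 η hη).and (eventually_ge_atTop 1)).exists
  exact ⟨n, by exact_mod_cast hn1, hn.le⟩

variable (μ : Measure ℝ) [IsProbabilityMeasure μ]

theorem measure_fst (S : Set (QE.Cfg d × ℝ)) (hS : MeasurableSet S) :
    ((KK d μ).prod μ) {ω | ω.1 ∈ S} = (KK d μ) S :=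
  (measurePreserving_fst (μ := KK d μ) (ν := μ)).measure_preimage hS.nullMeasurableSet

theorem measure_upd (hMP : MPStatement) (x₀ : Site d) (S : Set (QE.Cfg d × ℝ))
    (hS : MeasurableSet S) : ((KK d μ).prod μ) {ω | upd x₀ ω ∈ S} = (KK d μ) S :=
  (hMP d μ x₀).measure_preimage hS.nullMeasurableSet

/-- the three-term decomposition -/
theorem dq_le (A B : QE.Cfg d → Op d) {CB : ℝ} {F : Finset (Site d)} (hB : Loc B CB F)
    (x₀ x : Site d) {ε : ℝ} (hε : ε ≠ 0) (ω : (QE.Cfg d × ℝ) × ℝ) :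
    dq A x₀ x ε ω ≤ TT (fun V => A V - B V) x ε ω.1 +
      Real.sqrt |ε| * (CB * ∑ y ∈ F, ‖G ω.1.1 (zz ε ω.1.2) (del x) (x₀ + y)‖) +
      TT (fun V => A V - B V) x ε (upd x₀ ω) +
      |ω.2 - ω.1.1 x₀| * ‖G ω.1.1 (zz ε ω.1.2) (del x) x₀‖ *
        TT (fun V => A V - B V) x₀ ε (upd x₀ ω) := by
  obtain ⟨⟨V, E⟩, v⟩ := ω
  unfold dq TT upd
  simp only
  set V' := Function.update V x₀ v with hV'
  set g := G V (zz ε E) (del x) with hg
  have hz : (zz ε E).im ≠ 0 := by rw [zz_im]; exact hε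
  have h1 : A V' g - A V g = (A V' - B V') g + (B V' g - B V g) - (A V - B V) g := by
    rw [_root_.sub_apply, _root_.sub_apply]; abel
  have h2 : (A V' - B V') g = (A V' - B V') (G V' (zz ε E) (del x)) +
      (((v : ℂ) - V x₀) * g x₀) • (A V' - B V') (G V' (zz ε E) (del x₀)) := by
    have := G_update_site (V := V) hz x₀ v (del x)
    rw [← hg, ← hV'] at this
    conv_lhs => rw [this]
    rw [map_add, map_smul]
  have h3 : ‖A V' g - A V g‖ ≤ ‖(A V - B V) g‖ + CB * ∑ y ∈ F, ‖g (x₀ + y)‖ +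
      ‖(A V' - B V') (G V' (zz ε E) (del x))‖ +
      |v - V x₀| * ‖g x₀‖ * ‖(A V' - B V') (G V' (zz ε E) (del x₀))‖ := by
    rw [h1]
    have h4 : ‖(A V' - B V') g‖ ≤ ‖(A V' - B V') (G V' (zz ε E) (del x))‖ +
        |v - V x₀| * ‖g x₀‖ * ‖(A V' - B V') (G V' (zz ε E) (del x₀))‖ := by
      rw [h2]
      refine (norm_add_le _ _).trans (le_of_eq ?_)
      rw [norm_smul, norm_mul, ← Complex.ofReal_sub, Complex.norm_real, Real.norm_eq_abs]
    have h5 := hB.2 x₀ V v g
    rw [← hV'] at h5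
    have h6 := norm_sub_le ((A V' - B V') g + (B V' g - B V g)) ((A V - B V) g)
    have h7 := norm_add_le ((A V' - B V') g) (B V' g - B V g)
    linarith
  have h8 := mul_le_mul_of_nonneg_left h3 (Real.sqrt_nonneg |ε|)
  refine h8.trans (le_of_eq ?_)
  ring

/-- **module STEP** -/
theorem step_of (hL : LocalStatement) (hT : TraceStatement) (hTi : TightStatement)
    (hMP : MPStatement) : StepStatement := by
  intro d μ _ A hA x₀ x s hs δ hδ
  rw [ENNReal.tendsto_nhds_zero]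
  intro η₀ hη₀
  -- a real `η`
  obtain ⟨η, hη, hηle⟩ : ∃ η : ℝ, 0 < η ∧ ENNReal.ofReal η ≤ η₀ := by
    obtain ⟨r, hr, hr'⟩ := ENNReal.lt_iff_exists_nnreal_btwn.1 hη₀
    refine ⟨r, by exact_mod_cast hr, ?_⟩
    rw [ENNReal.ofReal_coe_nnreal]
    exact hr'.le
  have hη6 : 0 < η / 6 := by positivity
  -- the change of the potential is tight
  obtain ⟨K1, hK1, hK1'⟩ := exists_tail ((KK d μ).prod μ)
    (fun ω : (QE.Cfg d × ℝ) × ℝ => ω.2 - ω.1.1 x₀)
    (measurable_snd.sub ((measurable_pi_apply x₀).comp (measurable_fst.comp measurable_fst)))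
    (ENNReal.ofReal (η / 6)) (ENNReal.ofReal_pos.2 hη6)
  -- the Green function is tight
  have hCt := Ct_pos
  set K2 : ℝ := (6 * Ct / η) ^ 2 with hK2
  have hK2' : 0 < K2 := by positivity
  have hK2'' : Ct / Real.sqrt K2 = η / 6 := by
    rw [hK2, Real.sqrt_sq (by positivity)]
    field_simp
  set c : ℝ := min (δ / 4) (δ / (4 * K1 * K2)) with hc
  have hc0 : 0 < c := lt_min (by positivity) (by positivity)
  set κ : ℝ := η / 6 * c ^ 2 / Real.pi with hκ
  have hpi := Real.pi_pos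
  have hκ0 : 0 < κ := by positivity
  have hκc : Real.pi * κ / c ^ 2 = η / 6 := by
    rw [hκ]; field_simp
  obtain ⟨B, CB, F, hBc, hB, hBκ⟩ := hL d μ A hA κ hκ0
  have hCB := hB.1
  set D : QE.Cfg d → Op d := fun V => A V - B V with hD
  have hDc : Cov D := Cov.sub hA hBc
  -- the vanishing term
  set c' : ℝ := δ / (4 * (CB + 1) * (F.card + 1)) with hc'
  have hc'0 : 0 < c' := by positivity
  have hlim : Tendsto (fun ε : ℝ => (F.card : ℝ) * (Ct / Real.sqrt (c' * (Real.sqrt ε)⁻¹)))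
      (𝓝[>] 0) (𝓝 0) := by
    have h1 : Tendsto (fun ε : ℝ => Real.sqrt ε) (𝓝[>] 0) (𝓝[>] 0) := by
      apply tendsto_nhdsWithin_of_tendsto_nhds_of_eventually_within
      · have h := (Real.continuous_sqrt.tendsto 0)
        rw [Real.sqrt_zero] at h
        exact h.mono_left nhdsWithin_le_nhds
      · filter_upwards [self_mem_nhdsWithin] with ε hε
        exact Real.sqrt_pos.2 hε
    have h2 : Tendsto (fun ε : ℝ => Real.sqrt (c' * (Real.sqrt ε)⁻¹)) (𝓝[>] 0) atTop :=
      Real.tendsto_sqrt_atTop.comp ((tendsto_inv_nhdsGT_zero.comp h1).const_mul_atTop hc'0)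
    have h3 := (h2.const_div_atTop Ct).const_mul (F.card : ℝ)
    rwa [mul_zero] at h3
  filter_upwards [self_mem_nhdsWithin, (tendsto_order.1 hlim).2 _ hη6] with ε hε hε2
  have hε' : 0 < ε := hε
  have hse : s * ε ≠ 0 := by
    rcases hs with h | h <;> rw [h] <;> simp [hε'.ne']
  have habs : |s * ε| = ε := by
    rcases hs with h | h <;> rw [h] <;> simp [abs_of_pos hε']
  -- the six events
  set S3 : Set (QE.Cfg d × ℝ) := {p | c ≤ TT D x (s * ε) p} with hS3
  set S4 : Set (QE.Cfg d × ℝ) := {p | c ≤ TT D x₀ (s * ε) p} with hS4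
  set S5 : Set (QE.Cfg d × ℝ) := {p | K2 ≤ ‖G p.1 (zz (s * ε) p.2) (del x) x₀‖} with hS5
  set S6 : Site d → Set (QE.Cfg d × ℝ) := fun y =>
    {p | c' * (Real.sqrt ε)⁻¹ ≤ ‖G p.1 (zz (s * ε) p.2) (del x) (x₀ + y)‖} with hS6
  have mS3 : MeasurableSet S3 := measurableSet_le measurable_const (meas_TT hDc x hse)
  have mS4 : MeasurableSet S4 := measurableSet_le measurable_const (meas_TT hDc x₀ hse)
  have mS5 : MeasurableSet S5 := measurableSet_le measurable_const (meas_G hse _ _)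
  have mS6 : ∀ y, MeasurableSet (S6 y) := fun y =>
    measurableSet_le measurable_const (meas_G hse _ _)
  have e3 : (KK d μ) S3 ≤ ENNReal.ofReal (η / 6) := by
    have := measure_TT_le μ hT hDc hBκ x hse hc0
    rwa [hκc] at this
  have e4 : (KK d μ) S4 ≤ ENNReal.ofReal (η / 6) := by
    have := measure_TT_le μ hT hDc hBκ x₀ hse hc0
    rwa [hκc] at this
  have e5 : (KK d μ) S5 ≤ ENNReal.ofReal (η / 6) := by
    have := measure_entry_le μ hTi x₀ x hse hK2'
    rwa [hK2''] at this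
  have hR0 : 0 < c' * (Real.sqrt ε)⁻¹ := by positivity
  have e6 : ∑ y ∈ F, (KK d μ) (S6 y) ≤ ENNReal.ofReal (η / 6) := by
    calc ∑ y ∈ F, (KK d μ) (S6 y)
        ≤ ∑ _y ∈ F, ENNReal.ofReal (Ct / Real.sqrt (c' * (Real.sqrt ε)⁻¹)) :=
          Finset.sum_le_sum fun y _ => measure_entry_le μ hTi (x₀ + y) x hse hR0
      _ = ENNReal.ofReal ((F.card : ℝ) * (Ct / Real.sqrt (c' * (Real.sqrt ε)⁻¹))) := by
          rw [Finset.sum_const, nsmul_eq_mul, ENNReal.ofReal_mul (Nat.cast_nonneg _),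
            ENNReal.ofReal_natCast]
      _ ≤ ENNReal.ofReal (η / 6) := ENNReal.ofReal_le_ofReal hε2.le
  have hsub : {ω | δ ≤ dq A x₀ x (s * ε) ω} ⊆
      {ω | ω.1 ∈ S3} ∪ (⋃ y ∈ F, {ω | ω.1 ∈ S6 y}) ∪ {ω | upd x₀ ω ∈ S3} ∪
      {ω | K1 ≤ |ω.2 - ω.1.1 x₀|} ∪ {ω | ω.1 ∈ S5} ∪ {ω | upd x₀ ω ∈ S4} := by
    intro ω hω
    by_contra hn
    simp only [Set.mem_union, Set.mem_iUnion, not_or, not_exists, Set.mem_ofPred_eq, hS3, hS4,
      hS5, hS6, not_le] at hn
    obtain ⟨⟨⟨⟨⟨n1, n2⟩, n3⟩, n4⟩, n5⟩, n6⟩ := hn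
    have hω' : δ ≤ dq A x₀ x (s * ε) ω := hω
    have hle := hω'.trans (dq_le A B hB x₀ x hse ω)
    rw [habs] at hle
    have t1 : TT (fun V => A V - B V) x (s * ε) ω.1 < δ / 4 := n1.trans_le (min_le_left _ _)
    have t3 : TT (fun V => A V - B V) x (s * ε) (upd x₀ ω) < δ / 4 := n3.trans_le (min_le_left _ _)
    have t2 : Real.sqrt ε * (CB * ∑ y ∈ F, ‖G ω.1.1 (zz (s * ε) ω.1.2) (del x) (x₀ + y)‖) ≤
        δ / 4 := by
      have hsq : 0 < Real.sqrt ε := Real.sqrt_pos.2 hε'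
      have h1 : ∑ y ∈ F, ‖G ω.1.1 (zz (s * ε) ω.1.2) (del x) (x₀ + y)‖ ≤
          F.card * (c' * (Real.sqrt ε)⁻¹) := by
        rw [← nsmul_eq_mul]
        exact Finset.sum_le_card_nsmul _ _ _ fun y hy => (n2 y hy).le
      calc Real.sqrt ε * (CB * ∑ y ∈ F, ‖G ω.1.1 (zz (s * ε) ω.1.2) (del x) (x₀ + y)‖)
          ≤ Real.sqrt ε * (CB * (F.card * (c' * (Real.sqrt ε)⁻¹))) := by gcongr
        _ = CB * F.card * c' := by field_simp
        _ ≤ (CB + 1) * (F.card + 1) * c' := by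
            have : (0:ℝ) ≤ F.card := Nat.cast_nonneg _
            gcongr <;> linarith
        _ = δ / 4 := by rw [hc']; field_simp
    have t4 : |ω.2 - ω.1.1 x₀| * ‖G ω.1.1 (zz (s * ε) ω.1.2) (del x) x₀‖ *
        TT (fun V => A V - B V) x₀ (s * ε) (upd x₀ ω) ≤ δ / 4 := by
      have h0 : 0 ≤ TT (fun V => A V - B V) x₀ (s * ε) (upd x₀ ω) := by
        unfold TT; positivity
      have h6 : TT (fun V => A V - B V) x₀ (s * ε) (upd x₀ ω) ≤ δ / (4 * K1 * K2) :=
        n6.le.trans (min_le_right _ _)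
      calc |ω.2 - ω.1.1 x₀| * ‖G ω.1.1 (zz (s * ε) ω.1.2) (del x) x₀‖ *
          TT (fun V => A V - B V) x₀ (s * ε) (upd x₀ ω) ≤ K1 * K2 * (δ / (4 * K1 * K2)) := by
            gcongr
        _ = δ / 4 := by field_simp
    linarith
  calc ((KK d μ).prod μ) {ω | δ ≤ dq A x₀ x (s * ε) ω}
      ≤ ENNReal.ofReal (η / 6) + ENNReal.ofReal (η / 6) + ENNReal.ofReal (η / 6) +
        ENNReal.ofReal (η / 6) + ENNReal.ofReal (η / 6) + ENNReal.ofReal (η / 6) := by
        refine (measure_mono hsub).trans ?_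
        refine (measure_union_le _ _).trans (add_le_add ?_ ?_)
        · refine (measure_union_le _ _).trans (add_le_add ?_ ?_)
          · refine (measure_union_le _ _).trans (add_le_add ?_ hK1')
            refine (measure_union_le _ _).trans (add_le_add ?_ ?_)
            · refine (measure_union_le _ _).trans (add_le_add ?_ ?_)
              · rw [measure_fst μ S3 mS3]; exact e3
              · refine (measure_biUnion_finset_le _ _).trans ?_
                refine le_trans (le_of_eq ?_) e6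
                refine Finset.sum_congr rfl fun y _ => ?_
                exact measure_fst μ (S6 y) (mS6 y)
            · rw [measure_upd μ hMP x₀ S3 mS3]; exact e3
          · rw [measure_fst μ S5 mS5]; exact e5
        · rw [measure_upd μ hMP x₀ S4 mS4]; exact e4
    _ = ENNReal.ofReal η := by
        rw [← ENNReal.ofReal_add hη6.le hη6.le, ← ENNReal.ofReal_add (by positivity) hη6.le,
          ← ENNReal.ofReal_add (by positivity) hη6.le, ← ENNReal.ofReal_add (by positivity) hη6.le,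
          ← ENNReal.ofReal_add (by positivity) hη6.le]
        congr 1
        ring
    _ ≤ η₀ := hηle

end Pool.Agent.QE77
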