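import Pool.Agent.Helper54_QE.Defs

/-!
# Quantum ergodicity squad: basic lemmas on `ℓ²(ℤ^d)` and strong measurability
-/

set_option autoImplicit false
set_option linter.unusedSectionVars false

open scoped InnerProductSpace ComplexConjugate Topology ENNReal
open MeasureTheory Filter

noncomputable section

namespace Pool.Agent.QE77

open Pool.Agent.Anderson Pool.Agent.Helper54.Bal Pool.Agent.QE

variable {d : ℕ}

theorem add_coe (f g : L2 d) (x : Site d) : (f + g) x = f x + g x := rfl

theorem sub_coe (f g : L2 d) (x : Site d) : (f - g) x = f x - g x := rfl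

theorem smul_coe (c : ℂ) (f : L2 d) (x : Site d) : (c • f) x = c * f x := rfl

theorem hasSum_del (f : L2 d) : HasSum (fun y => f y • (del y : L2 d)) f := by
  have h := lp.hasSum_single (p := 2) (by norm_num) f
  refine h.congr_fun ?_ |> fun h => h
  intro x
  ext y
  rw [smul_coe, del_apply, lp.single_apply, Pi.single_apply]
  split_ifs with h
  · subst h; simp
  · simp

theorem continuous_coord (x : Site d) : Continuous fun f : L2 d => f x := by
  have : (fun f : L2 d => f x) = fun f => ⟪del x, f⟫_ℂ := by
    funext f; rw [inner_del_left]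
  rw [this]
  exact continuous_const.inner continuous_id

theorem norm_coord_le (f : L2 d) (x : Site d) : ‖f x‖ ≤ ‖f‖ := by
  rw [← inner_del_left x f]
  refine (norm_inner_le_norm _ _).trans ?_
  rw [norm_del, one_mul]

/-! ### strong measurability -/

section meas
variable {Ω : Type*} [MeasurableSpace Ω]

theorem sm_apply {F : Type*} [NormedAddCommGroup F] [NormedSpace ℂ F] {D : Ω → (L2 d →L[ℂ] F)}
    (hD : ∀ y, StronglyMeasurable (fun ω => D ω (del y)))
    {u : Ω → L2 d} (hu : StronglyMeasurable u) : StronglyMeasurable (fun ω => D ω (u ω)) := by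
  have h1 : ∀ s : Finset (Site d), StronglyMeasurable (fun ω => ∑ y ∈ s, u ω y • D ω (del y)) := by
    intro s
    refine Finset.stronglyMeasurable_fun_sum s fun y _ => ?_
    exact ((continuous_coord y).comp_stronglyMeasurable hu).smul (hD y)
  refine stronglyMeasurable_of_tendsto (u := (atTop : Filter (Finset (Site d)))) h1 ?_
  rw [tendsto_pi_nhds]
  intro ω
  have h2 := (hasSum_del (u ω)).mapL (D ω)
  have h3 : (fun y => D ω (u ω y • del y)) = fun y => u ω y • D ω (del y) := by
    funext y; rw [map_smul]
  rw [h3] at h2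
  exact h2

theorem sm_of_coord {u : Ω → L2 d} (hu : ∀ x, Measurable (fun ω => u ω x)) :
    StronglyMeasurable u := by
  have h1 : ∀ s : Finset (Site d),
      StronglyMeasurable (fun ω => ∑ y ∈ s, u ω y • (del y : L2 d)) := by
    intro s
    refine Finset.stronglyMeasurable_fun_sum s fun y _ => ?_
    exact (hu y).stronglyMeasurable.smul_const _
  refine stronglyMeasurable_of_tendsto (u := (atTop : Filter (Finset (Site d)))) h1 ?_
  rw [tendsto_pi_nhds]
  intro ω
  exact hasSum_del (u ω)

theorem measurable_coord {u : Ω → L2 d} (hu : StronglyMeasurable u) (x : Site d) :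
    Measurable (fun ω => u ω x) :=
  ((continuous_coord x).comp_stronglyMeasurable hu).measurable

end meas

theorem enorm_sq_ofReal {F : Type*} [NormedAddCommGroup F] (u : F) :
    ‖u‖ₑ ^ 2 = ENNReal.ofReal (‖u‖ ^ 2) := by
  rw [← ofReal_norm, ENNReal.ofReal_pow (norm_nonneg _)]

theorem enorm_sq_tsum (f : L2 d) : ‖f‖ₑ ^ 2 = ∑' x, ‖f x‖ₑ ^ 2 := by
  rw [enorm_sq_ofReal, L2.norm_sq, ENNReal.ofReal_tsum_of_nonneg (fun x => by positivity)
    (L2.summable_sq f)]
  refine tsum_congr fun x => ?_
  rw [enorm_sq_ofReal]

/-- a vector with finite support is bounded by the sum of its coordinates -/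
theorem norm_le_sum_of_support (f : L2 d) (T : Finset (Site d)) (h : ∀ x ∉ T, f x = 0) :
    ‖f‖ ≤ ∑ x ∈ T, ‖f x‖ := by
  have h1 : f = ∑ x ∈ T, f x • (del x : L2 d) := by
    refine (hasSum_del f).unique ?_
    refine hasSum_sum_of_ne_finset_zero ?_
    intro x hx
    rw [h x hx, zero_smul]
  calc ‖f‖ = ‖∑ x ∈ T, f x • (del x : L2 d)‖ := by rw [← h1]
    _ ≤ ∑ x ∈ T, ‖f x • (del x : L2 d)‖ := norm_sum_le _ _
    _ = ∑ x ∈ T, ‖f x‖ := by
        refine Finset.sum_congr rfl fun x _ => ?_
        rw [norm_smul, norm_del, mul_one]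

/-! ### translations -/

theorem tau_tau (a b : Site d) (V : QE.Cfg d) : QE.tau a (QE.tau b V) = QE.tau (a + b) V := by
  funext y; unfold QE.tau; rw [add_assoc]

theorem measurable_tau (a : Site d) : Measurable (QE.tau (d := d) a) :=
  measurable_pi_lambda _ fun y => measurable_pi_apply (y + a)

theorem measurable_update' (x₀ : Site d) :
    Measurable fun p : QE.Cfg d × ℝ => Function.update p.1 x₀ p.2 := by
  refine measurable_pi_lambda _ fun y => ?_
  by_cases hy : y = x₀
  · subst hy
    simpa using measurable_snd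
  · simp only [Function.update_of_ne hy]
    exact (measurable_pi_apply y).comp measurable_fst

end Pool.Agent.QE77
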