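import Pool.Agent.Helper77_QE.Basic

/-!
# Quantum ergodicity squad: module STEP

Changing the potential at one site has an asymptotically negligible effect on a bounded covariant
family of operators applied to the Green functions.
-/

set_option autoImplicit false
set_option linter.unusedSectionVars false

open scoped InnerProductSpace ComplexConjugate Topology ENNReal
open MeasureTheory Filter

noncomputable section

namespace Pool.Agent.QE77

open Pool.Agent.Anderson Pool.Agent.Helper54.Bal Pool.Agent.QE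

variable {d : ℕ}

/-! ### the resolvent identity for a change at `x₀` -/

theorem G_update_site {V : Site d → ℝ} {z : ℂ} (hz : z.im ≠ 0) (x₀ : Site d) (s : ℝ) (f : L2 d) :
    G V z f = G (Function.update V x₀ s) z f +
      (((s : ℂ) - V x₀) * G V z f x₀) • G (Function.update V x₀ s) z (del x₀) := by
  set V' := Function.update V x₀ s with hV'
  set c : ℂ := ((s : ℂ) - V x₀) * G V z f x₀ with hc
  have key : G V z f - c • G V' z (del x₀) = G V' z f := by
    apply G_unique hz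
    intro x
    have h1 := G_eq (V := V) hz f x
    have h2 := G_eq (V := V') hz (del x₀) x
    have hl : lap (⇑(G V z f - c • G V' z (del x₀))) x =
        lap (G V z f) x - c * lap (G V' z (del x₀)) x := by
      rw [← Lap_apply, ← Lap_apply, ← Lap_apply, map_sub, map_smul]
      rfl
    rw [hl, sub_coe, smul_coe]
    have h3 : lap (G V z f) x - c * lap (G V' z (del x₀)) x +
        ((V' x : ℂ) - z) * (G V z f x - c * G V' z (del x₀) x) =
        (lap (G V z f) x + ((V x : ℂ) - z) * G V z f x) +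
        ((V' x : ℂ) - V x) * G V z f x -
        c * (lap (G V' z (del x₀)) x + ((V' x : ℂ) - z) * G V' z (del x₀) x) := by ring
    rw [h3, h1, h2, del_apply]
    by_cases hx : x = x₀
    · subst hx
      rw [if_pos rfl, hV', Function.update_self, hc]
      ring
    · rw [if_neg hx, hV', Function.update_of_ne hx]
      ring
  rw [← key]
  abel

/-! ### measurability -/

theorem sm_G {ε : ℝ} (hε : ε ≠ 0) (f : L2 d) :
    StronglyMeasurable fun p : QE.Cfg d × ℝ => G p.1 (zz ε p.2) f := by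
  have h1 : Continuous (fun p : QE.Cfg d × ℝ => ((p.1, p.2, f) : (Site d → ℝ) × ℝ × L2 d)) :=
    continuous_fst.prodMk (continuous_snd.prodMk continuous_const)
  have h : Continuous ((fun p : (Site d → ℝ) × ℝ × L2 d => G p.1 (zz ε p.2.1) p.2.2) ∘
      (fun p : QE.Cfg d × ℝ => ((p.1, p.2, f) : (Site d → ℝ) × ℝ × L2 d))) :=
    (continuous_G hε).comp h1
  exact h.stronglyMeasurable

theorem meas_G {ε : ℝ} (hε : ε ≠ 0) (f : L2 d) (a : Site d) :
    Measurable fun p : QE.Cfg d × ℝ => ‖G p.1 (zz ε p.2) f a‖ :=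
  (measurable_coord (sm_G hε f) a).norm

/-- `√|ε| ‖D G δ_x‖` -/
def TT (D : QE.Cfg d → Op d) (x : Site d) (ε : ℝ) (p : QE.Cfg d × ℝ) : ℝ :=
  Real.sqrt |ε| * ‖D p.1 (G p.1 (zz ε p.2) (del x))‖

theorem sm_apply_pair {D : QE.Cfg d × ℝ → Op d}
    (h0 : ∀ y, StronglyMeasurable fun p : QE.Cfg d × ℝ => D p (del y))
    (u : QE.Cfg d × ℝ → L2 d) (hu : StronglyMeasurable u) :
    StronglyMeasurable fun p : QE.Cfg d × ℝ => D p (u p) := sm_apply h0 hu

theorem meas_TT {D : QE.Cfg d → Op d} (hD : Cov D) (x : Site d) {ε : ℝ} (hε : ε ≠ 0) :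
    Measurable (TT D x ε) := by
  unfold TT
  have h0 : ∀ y, StronglyMeasurable fun p : QE.Cfg d × ℝ => D p.1 (del y) :=
    fun y => (hD.meas (del y)).comp_measurable measurable_fst
  have h1 := sm_G hε (del x)
  have h2 := sm_apply_pair h0 _ h1
  exact h2.norm.measurable.const_mul _

/-! ### the reference measure -/

instance finite_lam : IsFiniteMeasure lam := by
  unfold lam
  exact isFiniteMeasure_withDensity_ofReal integrable_inv_one_add_sq.2

theorem lintegral_lam_le (g : ℝ → ℝ≥0∞) : ∫⁻ E, g E ∂lam ≤ ∫⁻ E, g E := by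
  unfold lam
  refine (lintegral_withDensity_le_lintegral_mul _ (by fun_prop) g).trans ?_
  refine lintegral_mono fun E => ?_
  rw [Pi.mul_apply]
  have : ENNReal.ofReal (1 + E ^ 2)⁻¹ ≤ 1 := by
    rw [ENNReal.ofReal_le_one]
    exact inv_le_one_of_one_le₀ (by nlinarith [sq_nonneg E])
  calc ENNReal.ofReal (1 + E ^ 2)⁻¹ * g E ≤ 1 * g E := by gcongr
    _ = g E := one_mul _

theorem Cov.sub {D D' : QE.Cfg d → Op d} (h : Cov D) (h' : Cov D') :
    Cov (fun V => D V - D' V) := by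
  refine ⟨fun f => (h.meas f).sub (h'.meas f), fun g V f => ?_, ?_⟩
  · simp only [_root_.sub_apply, h.cov, h'.cov, map_sub]
  · obtain ⟨C, hC⟩ := h.bdd
    obtain ⟨C', hC'⟩ := h'.bdd
    exact ⟨C + C', fun V => (norm_sub_le _ _).trans (add_le_add (hC V) (hC' V))⟩

variable (μ : Measure ℝ) [IsProbabilityMeasure μ]

/-- Markov's inequality for `√|ε| ‖D G δ_x‖` -/
theorem measure_TT_le (hT : TraceStatement) {D : QE.Cfg d → Op d} (hD : Cov D) {κ : ℝ}
    (hκ : ∫⁻ V, ‖D V (del 0)‖ₑ ^ 2 ∂(QE.PP d μ) ≤ ENNReal.ofReal κ) (x : Site d) {ε : ℝ}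
    (hε : ε ≠ 0) {c : ℝ} (hc : 0 < c) :
    (KK d μ) {p | c ≤ TT D x ε p} ≤ ENNReal.ofReal (Real.pi * κ / c ^ 2) := by
  have hm := meas_TT hD x hε
  have hm2 : Measurable fun p => ENNReal.ofReal (TT D x ε p ^ 2) :=
    ENNReal.measurable_ofReal.comp (hm.pow_const 2)
  have hc2 : 0 < c ^ 2 := by positivity
  have hsub : {p | c ≤ TT D x ε p} ⊆
      {p | ENNReal.ofReal (c ^ 2) ≤ ENNReal.ofReal (TT D x ε p ^ 2)} := by
    intro p hp
    simp only [Set.mem_ofPred_eq] at hp ⊢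
    apply ENNReal.ofReal_le_ofReal
    gcongr
  have hI : ∫⁻ p, ENNReal.ofReal (TT D x ε p ^ 2) ∂(KK d μ) ≤ ENNReal.ofReal (Real.pi * κ) := by
    unfold KK
    rw [lintegral_prod _ hm2.aemeasurable]
    calc ∫⁻ V, ∫⁻ E, ENNReal.ofReal (TT D x ε (V, E) ^ 2) ∂lam ∂(QE.PP d μ)
        ≤ ∫⁻ V, (∫⁻ E : ℝ, ENNReal.ofReal |ε| * ‖D V (G V (zz ε E) (del x))‖ₑ ^ 2)
            ∂(QE.PP d μ) := by
          refine lintegral_mono fun V => (lintegral_lam_le _).trans (le_of_eq ?_)
          refine lintegral_congr fun E => ?_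
          unfold TT
          rw [mul_pow, Real.sq_sqrt (abs_nonneg _), ENNReal.ofReal_mul (abs_nonneg _),
            enorm_sq_ofReal]
      _ = ENNReal.ofReal Real.pi * ∫⁻ V, ‖D V (del 0)‖ₑ ^ 2 ∂(QE.PP d μ) :=
          hT d μ D hD x ε hε
      _ ≤ ENNReal.ofReal Real.pi * ENNReal.ofReal κ := by gcongr
      _ = ENNReal.ofReal (Real.pi * κ) := (ENNReal.ofReal_mul Real.pi_pos.le).symm
  refine (measure_mono hsub).trans ?_
  refine (meas_ge_le_lintegral_div hm2.aemeasurable (ENNReal.ofReal_pos.2 hc2).ne'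
    ENNReal.ofReal_ne_top).trans ?_
  rw [ENNReal.ofReal_div_of_pos hc2]
  exact ENNReal.div_le_div_right hI _

/-! ### tightness of the Green functions -/

theorem zz_neg_conj (ε E : ℝ) : zz (-ε) E = conj (zz ε E) := by
  unfold zz
  simp

theorem tight_diag (hTi : TightStatement) (V : QE.Cfg d) (w : L2 d) {ε : ℝ} (hε : ε ≠ 0) :
    ∫⁻ E, ENNReal.ofReal (Real.sqrt ‖⟪G V (zz ε E) w, w⟫_ℂ‖) ∂lam ≤
      ENNReal.ofReal (Real.sqrt 2 * Real.pi * ‖w‖) := by
  rcases lt_or_gt_of_ne hε with h | h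
  · have h' : 0 < -ε := by linarith
    refine le_trans (le_of_eq ?_) (hTi d V w (-ε) h')
    refine lintegral_congr fun E => ?_
    have hz : (zz ε E).im ≠ 0 := by rw [zz_im]; exact hε
    rw [zz_neg_conj, (isRes_G V).adj _ hz]
  · refine le_trans (le_of_eq ?_) (hTi d V w ε h)
    refine lintegral_congr fun E => ?_
    rw [norm_inner_symm]

theorem sqrt_add_le (a b : ℝ) (ha : 0 ≤ a) (hb : 0 ≤ b) :
    Real.sqrt (a + b) ≤ Real.sqrt a + Real.sqrt b := by
  rw [Real.sqrt_le_left (by positivity)]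
  have h1 := Real.sq_sqrt ha
  have h2 := Real.sq_sqrt hb
  have h3 : 0 ≤ Real.sqrt a * Real.sqrt b := by positivity
  nlinarith

/-- the constant in the tightness estimate -/
def Ct : ℝ := 4 * (Real.sqrt 2 * Real.pi * 2)

theorem Ct_pos : 0 < Ct := by
  unfold Ct
  have := Real.pi_pos
  positivity

theorem tight_entry (hTi : TightStatement) (V : QE.Cfg d) (a b : Site d) {ε : ℝ} (hε : ε ≠ 0) :
    ∫⁻ E, ENNReal.ofReal (Real.sqrt ‖G V (zz ε E) (del b) a‖) ∂lam ≤ ENNReal.ofReal Ct := by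
  set F : L2 d → ℝ → ℝ := fun w E => Real.sqrt ‖⟪G V (zz ε E) w, w⟫_ℂ‖ with hF
  set w1 : L2 d := del a + del b
  set w2 : L2 d := del a - del b
  set w3 : L2 d := del a + Complex.I • del b
  set w4 : L2 d := del a - Complex.I • del b
  have hcont : ∀ w, Measurable fun E => ENNReal.ofReal (F w E) := by
    intro w
    refine ENNReal.measurable_ofReal.comp ?_
    have := (isRes_G V).cont_line hε w
    exact (((this.inner continuous_const).norm).sqrt).measurable
  have hn1 : ‖w1‖ ≤ 2 := (norm_add_le _ _).trans (by rw [norm_del, norm_del]; norm_num)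
  have hn2 : ‖w2‖ ≤ 2 := (norm_sub_le _ _).trans (by rw [norm_del, norm_del]; norm_num)
  have hn3 : ‖w3‖ ≤ 2 := (norm_add_le _ _).trans (by
    rw [norm_smul, norm_del, norm_del, Complex.norm_I]; norm_num)
  have hn4 : ‖w4‖ ≤ 2 := (norm_sub_le _ _).trans (by
    rw [norm_smul, norm_del, norm_del, Complex.norm_I]; norm_num)
  have hb : ∀ w : L2 d, ‖w‖ ≤ 2 → ∫⁻ E, ENNReal.ofReal (F w E) ∂lam ≤
      ENNReal.ofReal (Real.sqrt 2 * Real.pi * 2) := by
    intro w hw
    refine (tight_diag hTi V w hε).trans (ENNReal.ofReal_le_ofReal ?_)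
    have := Real.pi_pos
    gcongr
  have hpt : ∀ E, ENNReal.ofReal (Real.sqrt ‖G V (zz ε E) (del b) a‖) ≤
      ENNReal.ofReal (F w1 E) + ENNReal.ofReal (F w2 E) + ENNReal.ofReal (F w3 E) +
        ENNReal.ofReal (F w4 E) := by
    intro E
    have hF0 : ∀ w, 0 ≤ F w E := fun w => Real.sqrt_nonneg _
    rw [← ENNReal.ofReal_add (hF0 _) (hF0 _), ← ENNReal.ofReal_add (by
      have := hF0 w1; have := hF0 w2; linarith) (hF0 _), ← ENNReal.ofReal_add (by
      have := hF0 w1; have := hF0 w2; have := hF0 w3; linarith) (hF0 _)]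
    apply ENNReal.ofReal_le_ofReal
    have hp := inner_map_polarization (G V (zz ε E) : L2 d →ₗ[ℂ] L2 d) (del a) (del b)
    rw [ContinuousLinearMap.coe_coe] at hp
    have h1 : ‖G V (zz ε E) (del b) a‖ ≤ ‖⟪G V (zz ε E) w1, w1⟫_ℂ‖ + ‖⟪G V (zz ε E) w2, w2⟫_ℂ‖ +
        ‖⟪G V (zz ε E) w3, w3⟫_ℂ‖ + ‖⟪G V (zz ε E) w4, w4⟫_ℂ‖ := by
      have h2 : ‖G V (zz ε E) (del b) a‖ = ‖⟪G V (zz ε E) (del b), del a⟫_ℂ‖ := by
        rw [inner_del_right, RCLike.norm_conj]
      rw [h2, hp, norm_div]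
      have h4 : ‖(4:ℂ)‖ = 4 := by norm_num
      rw [h4]
      have n1 := norm_nonneg ⟪G V (zz ε E) w1, w1⟫_ℂ
      have n2 := norm_nonneg ⟪G V (zz ε E) w2, w2⟫_ℂ
      have n3 := norm_nonneg ⟪G V (zz ε E) w3, w3⟫_ℂ
      have n4 := norm_nonneg ⟪G V (zz ε E) w4, w4⟫_ℂ
      have h5 : ‖⟪G V (zz ε E) w1, w1⟫_ℂ - ⟪G V (zz ε E) w2, w2⟫_ℂ +
          Complex.I * ⟪G V (zz ε E) w3, w3⟫_ℂ - Complex.I * ⟪G V (zz ε E) w4, w4⟫_ℂ‖ ≤
          ‖⟪G V (zz ε E) w1, w1⟫_ℂ‖ + ‖⟪G V (zz ε E) w2, w2⟫_ℂ‖ +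
          ‖⟪G V (zz ε E) w3, w3⟫_ℂ‖ + ‖⟪G V (zz ε E) w4, w4⟫_ℂ‖ := by
        refine (norm_sub_le _ _).trans ?_
        rw [norm_mul, Complex.norm_I, one_mul]
        refine add_le_add ((norm_add_le _ _).trans ?_) le_rfl
        rw [norm_mul, Complex.norm_I, one_mul]
        exact add_le_add (norm_sub_le _ _) le_rfl
      refine (div_le_div_of_nonneg_right h5 (by norm_num)).trans ?_
      linarith
    refine (Real.sqrt_le_sqrt h1).trans ?_
    refine (sqrt_add_le _ _ (by positivity) (by positivity)).trans (add_le_add ?_ le_rfl)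
    refine (sqrt_add_le _ _ (by positivity) (by positivity)).trans (add_le_add ?_ le_rfl)
    exact sqrt_add_le _ _ (by positivity) (by positivity)
  calc ∫⁻ E, ENNReal.ofReal (Real.sqrt ‖G V (zz ε E) (del b) a‖) ∂lam
      ≤ ∫⁻ E, (ENNReal.ofReal (F w1 E) + ENNReal.ofReal (F w2 E) + ENNReal.ofReal (F w3 E) +
        ENNReal.ofReal (F w4 E)) ∂lam := lintegral_mono hpt
    _ = ∫⁻ E, ENNReal.ofReal (F w1 E) ∂lam + ∫⁻ E, ENNReal.ofReal (F w2 E) ∂lam +
        ∫⁻ E, ENNReal.ofReal (F w3 E) ∂lam + ∫⁻ E, ENNReal.ofReal (F w4 E) ∂lam := by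
        rw [lintegral_add_right _ (hcont w4), lintegral_add_right _ (hcont w3),
          lintegral_add_right _ (hcont w2)]
    _ ≤ ENNReal.ofReal (Real.sqrt 2 * Real.pi * 2) + ENNReal.ofReal (Real.sqrt 2 * Real.pi * 2) +
        ENNReal.ofReal (Real.sqrt 2 * Real.pi * 2) +
        ENNReal.ofReal (Real.sqrt 2 * Real.pi * 2) := by
        gcongr
        exacts [hb _ hn1, hb _ hn2, hb _ hn3, hb _ hn4]
    _ = ENNReal.ofReal Ct := by
        have := Real.pi_pos
        rw [← ENNReal.ofReal_add (by positivity) (by positivity),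
          ← ENNReal.ofReal_add (by positivity) (by positivity),
          ← ENNReal.ofReal_add (by positivity) (by positivity)]
        congr 1
        unfold Ct
        ring

/-- Markov's inequality for the entries of the Green function -/
theorem measure_entry_le (hTi : TightStatement) (a b : Site d) {ε : ℝ} (hε : ε ≠ 0) {R : ℝ}
    (hR : 0 < R) :
    (KK d μ) {p | R ≤ ‖G p.1 (zz ε p.2) (del b) a‖} ≤ ENNReal.ofReal (Ct / Real.sqrt R) := by
  have hm2 : Measurable fun p : QE.Cfg d × ℝ =>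
      ENNReal.ofReal (Real.sqrt ‖G p.1 (zz ε p.2) (del b) a‖) :=
    ENNReal.measurable_ofReal.comp (meas_G hε (del b) a).sqrt
  have hR2 : 0 < Real.sqrt R := Real.sqrt_pos.2 hR
  have hsub : {p : QE.Cfg d × ℝ | R ≤ ‖G p.1 (zz ε p.2) (del b) a‖} ⊆
      {p | ENNReal.ofReal (Real.sqrt R) ≤
        ENNReal.ofReal (Real.sqrt ‖G p.1 (zz ε p.2) (del b) a‖)} := by
    intro p hp
    simp only [Set.mem_ofPred_eq] at hp ⊢
    exact ENNReal.ofReal_le_ofReal (Real.sqrt_le_sqrt hp)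
  have hI : ∫⁻ p, ENNReal.ofReal (Real.sqrt ‖G p.1 (zz ε p.2) (del b) a‖) ∂(KK d μ) ≤
      ENNReal.ofReal Ct := by
    unfold KK
    rw [lintegral_prod _ hm2.aemeasurable]
    refine (lintegral_mono fun V => tight_entry hTi V a b hε).trans (le_of_eq ?_)
    rw [lintegral_const, measure_univ, mul_one]
  refine (measure_mono hsub).trans ?_
  refine (meas_ge_le_lintegral_div hm2.aemeasurable (ENNReal.ofReal_pos.2 hR2).ne'
    ENNReal.ofReal_ne_top).trans ?_
  rw [ENNReal.ofReal_div_of_pos hR2]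
  exact ENNReal.div_le_div_right hI _

end Pool.Agent.QE77
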